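import Pool.Agent.helper36.PT.Spec
import Pool.Agent.helper17.AA.L2

/-! # Project PT (MP_ad8ced_nt), row FNL: the theorem from the classes -/

set_option autoImplicit false

namespace Pool.Agent.PT

open Finset Pool.Agent.helper71.AA

/-- **FNL**: sum over the classes. -/
theorem FNL (h1 : PCL_stmt) : FNL_stmt := by
  intro ε hε
  classical
  obtain ⟨w, hw, c, C, X₀, hc, hC, h⟩ := h1 ε hε
  refine ⟨c, C, max X₀ 1, hc, hC, ?_⟩
  intro X P hX hP1 hP2
  have hX0 : X₀ ≤ X := (le_max_left _ _).trans hX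
  have hX1 : 1 ≤ X := (le_max_right _ _).trans hX
  set W := primorial w with hW
  have hWpos : 0 < W := primorial_pos w
  have h2W : 2 ∣ W := by
    refine Finset.dvd_prod_of_mem (fun p => p) (Finset.mem_filter.2 ⟨?_, Nat.prime_two⟩)
    exact Finset.mem_range.2 (by omega)
  have h3W : 3 ∣ W := by
    refine Finset.dvd_prod_of_mem (fun p => p) (Finset.mem_filter.2 ⟨?_, Nat.prime_three⟩)
    exact Finset.mem_range.2 (by omega)
  set T : Finset ℕ := (Finset.range W).filter (fun a₀ => a₀ % 2 = 0 ∧ a₀ % 3 ≠ 1) with hT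
  have hsub : (Icc 1 ⌊X⌋₊).filter (fun a => a % 2 = 0 ∧ a % 3 ≠ 1 ∧
        (((Gp2 a P (X ^ (0.13 : ℝ))).card : ℕ) : ℝ) < c * P / (Real.log P * Real.log X)) ⊆
      T.biUnion (fun a₀ => (As W a₀ X).filter (fun a => (((Gp2 a P (X ^ (0.13 : ℝ))).card : ℕ) : ℝ) <
          c * P / (Real.log P * Real.log X))) := by
    intro a ha
    obtain ⟨ha1, ha2, ha3, ha4⟩ := Finset.mem_filter.1 ha
    refine Finset.mem_biUnion.2 ⟨a % W, ?_, ?_⟩
    · refine Finset.mem_filter.2 ⟨Finset.mem_range.2 (Nat.mod_lt _ hWpos), ?_, ?_⟩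
      · rw [Nat.mod_mod_of_dvd _ h2W]
        exact ha2
      · rw [Nat.mod_mod_of_dvd _ h3W]
        exact ha3
    · refine Finset.mem_filter.2 ⟨?_, ha4⟩
      exact Finset.mem_filter.2 ⟨ha1, (Nat.mod_modEq a W).symm⟩
  have hcard := (Finset.card_le_card hsub).trans Finset.card_biUnion_le
  have hcard' : ((((Icc 1 ⌊X⌋₊).filter (fun a => a % 2 = 0 ∧ a % 3 ≠ 1 ∧
        (((Gp2 a P (X ^ (0.13 : ℝ))).card : ℕ) : ℝ) < c * P / (Real.log P * Real.log X))).card : ℕ) : ℝ) ≤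
      ∑ a₀ ∈ T, ((((As W a₀ X).filter (fun a => (((Gp2 a P (X ^ (0.13 : ℝ))).card : ℕ) : ℝ) <
          c * P / (Real.log P * Real.log X))).card : ℕ) : ℝ) := by
    exact_mod_cast hcard
  refine hcard'.trans ?_
  have hterm : ∀ a₀ ∈ T, ((((As W a₀ X).filter (fun a => (((Gp2 a P (X ^ (0.13 : ℝ))).card : ℕ) : ℝ) <
          c * P / (Real.log P * Real.log X))).card : ℕ) : ℝ) ≤ ε * (X / (W : ℝ)) := by
    intro a₀ ha₀
    obtain ⟨-, h20, h30⟩ := Finset.mem_filter.1 ha₀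
    obtain ⟨b, hb1, hb2⟩ := exists_b w a₀ h20 h30
    exact h X P hX0 ⟨hP1, hP2⟩ a₀ b hb1 hb2
  have hsum := Finset.sum_le_card_nsmul T _ _ hterm
  refine hsum.trans ?_
  rw [nsmul_eq_mul]
  have hTc : (T.card : ℝ) ≤ W := by
    have : T.card ≤ (Finset.range W).card := Finset.card_filter_le _ _
    rw [Finset.card_range] at this
    exact_mod_cast this
  have hWr : (0 : ℝ) < W := by exact_mod_cast hWpos
  calc (T.card : ℝ) * (ε * (X / (W : ℝ))) ≤ W * (ε * (X / (W : ℝ))) := by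
        refine mul_le_mul_of_nonneg_right hTc ?_
        positivity
    _ = ε * X := by
        field_simp

end Pool.Agent.PT
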