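import Pool.Agent.helper83.PT.TWa

set_option linter.all false
set_option autoImplicit false

/-!
# pt:TW, positivity of the symbol functional (MP_2dd521_co), second part
-/

namespace Pool.Agent.helper83.PTW

open MvPolynomial Pool.Agent.helper59.PT
open scoped ComplexConjugate

section half

variable {ι : Type}

theorem real_smul {V : Type} (r : ℝ) (v : MvPolynomial V ℂ) : r • v = C (r : ℂ) * v := by
  ext m
  rw [coeff_smul, coeff_C_mul, Complex.real_smul]

/-- the derivatives as real linear maps -/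
noncomputable def lR (e : ι → ℂ) (i : Fin 3) :
    MvPolynomial (Fin 3 × ι) ℂ →ₗ[ℝ] MvPolynomial (Fin 3 × ι) ℂ where
  toFun u := DD (sl e i) u
  map_add' u v := map_add _ _ _
  map_smul' r u := by
    rw [real_smul, DD_mul, DD_C, RingHom.id_apply, real_smul]
    ring

theorem DD_Cm {V : Type} (f : V → ℂ) (a : ℂ) (u : MvPolynomial V ℂ) :
    DD f (C a * u) = C a * DD f u := by
  rw [DD_mul, DD_C]
  ring

theorem Xo_aux {V : Type} (r : ℂ) (x u : MvPolynomial V ℂ) (W : Fin 3 → ℂ)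
    (D : Fin 3 → MvPolynomial V ℂ) :
    x * (C r * u) - ∑ i, C (W i) * (C r * D i) = C r * (x * u - ∑ i, C (W i) * D i) := by
  rw [mul_sub, Finset.mul_sum]
  have h1 : x * (C r * u) = C r * (x * u) := by ring
  have h2 : ∀ i, C (W i) * (C r * D i) = C r * (C (W i) * D i) := fun i => by ring
  rw [h1]
  simp only [h2]

/-- the creation operators -/
noncomputable def Xo [Fintype ι] (c : Fin 3 → ℝ) (e : ι → ℂ) (j : Fin 3) :
    MvPolynomial (Fin 3 × ι) ℂ →ₗ[ℝ] MvPolynomial (Fin 3 × ι) ℂ where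
  toFun u := xx e j * u - ∑ i, C (Wm c j i : ℂ) * DD (sl e i) u
  map_add' u v := by
    simp only [map_add, mul_add, Finset.sum_add_distrib]
    ring
  map_smul' r u := by
    rw [RingHom.id_apply, real_smul, real_smul]
    simp only [DD_Cm]
    exact Xo_aux _ _ _ _ _

theorem lR_apply (e : ι → ℂ) (i : Fin 3) (u : MvPolynomial (Fin 3 × ι) ℂ) :
    lR e i u = DD (sl e i) u := rfl

theorem Xo_apply [Fintype ι] (c : Fin 3 → ℝ) (e : ι → ℂ) (j : Fin 3)
    (u : MvPolynomial (Fin 3 × ι) ℂ) :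
    Xo c e j u = xx e j * u - ∑ i, C (Wm c j i : ℂ) * DD (sl e i) u := rfl

theorem Xo_apply' [Fintype ι] (c : Fin 3 → ℝ) (e : ι → ℂ) (j : Fin 3)
    (u : MvPolynomial (Fin 3 × ι) ℂ) :
    Xo c e j u = xx e j * u - ∑ i, (Wm c j i) • lR e i u := by
  rw [Xo_apply]
  simp only [real_smul, lR_apply]

/-- the inner product of the half ring -/
noncomputable def BB (L : MvPolynomial (Sl × ι) ℂ →ₗ[ℂ] ℂ) :
    MvPolynomial (Fin 3 × ι) ℂ →ₗ[ℝ] MvPolynomial (Fin 3 × ι) ℂ →ₗ[ℝ] ℂ :=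
  LinearMap.mk₂ ℝ (fun v u => L (rename ph2 (cj v) * rename ph1 u))
    (fun v v' u => by rw [cj_add, map_add (rename ph2), add_mul, map_add])
    (fun r v u => by
      rw [real_smul, cj_mul, cj_C, Complex.conj_ofReal, map_mul (rename ph2), rename_C, mul_assoc,
        L_C_mul, Complex.real_smul])
    (fun v u u' => by rw [map_add (rename ph1), mul_add, map_add])
    (fun r v u => by
      rw [real_smul, map_mul (rename ph1), rename_C, mul_left_comm, L_C_mul, Complex.real_smul])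

theorem BB_apply (L : MvPolynomial (Sl × ι) ℂ →ₗ[ℂ] ℂ) (v u : MvPolynomial (Fin 3 × ι) ℂ) :
    BB L v u = L (rename ph2 (cj v) * rename ph1 u) := rfl

theorem BB_h1 [Fintype ι] [DecidableEq ι] {c : Fin 3 → ℝ}
    {L : MvPolynomial (Sl × ι) ℂ →ₗ[ℂ] ℂ} (hL : IsG (KC c) L) (e : ι → ℂ) (i : Fin 3)
    (v u : MvPolynomial (Fin 3 × ι) ℂ) :
    BB L (Xo c e i v) u = ∑ j, Mc c i j • BB L v (lR e j u) := by
  have h : BB L (xx e i * v) u = ∑ j, (Mc c i j : ℂ) * BB L v (lR e j u) +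
      ∑ k, (Wm c i k : ℂ) * BB L (lR e k v) u := creL hL e i v u
  have hX : BB L (Xo c e i v) u = BB L (xx e i * v) u -
      ∑ k, (Wm c i k : ℂ) * BB L (lR e k v) u := by
    rw [Xo_apply', map_sub, LinearMap.sub_apply, map_sum, LinearMap.sum_apply]
    simp only [map_smul, LinearMap.smul_apply, Complex.real_smul]
  rw [hX, h, add_sub_cancel_right]
  simp only [Complex.real_smul]

theorem BB_h2 [Fintype ι] [DecidableEq ι] {c : Fin 3 → ℝ}
    {L : MvPolynomial (Sl × ι) ℂ →ₗ[ℂ] ℂ} (hL : IsG (KC c) L) (e : ι → ℂ) (j : Fin 3)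
    (v u : MvPolynomial (Fin 3 × ι) ℂ) :
    BB L v (Xo c e j u) = ∑ i, Mc c i j • BB L (lR e i v) u := by
  have h : BB L v (xx e j * u) = ∑ i, (Wm c j i : ℂ) * BB L v (lR e i u) +
      ∑ i, (Mc c i j : ℂ) * BB L (lR e i v) u := creR hL e j v u
  have hX : BB L v (Xo c e j u) = BB L v (xx e j * u) -
      ∑ k, (Wm c j k : ℂ) * BB L v (lR e k u) := by
    rw [Xo_apply', map_sub, map_sum]
    simp only [map_smul, Complex.real_smul]
  rw [hX, h, add_sub_cancel_left]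
  simp only [Complex.real_smul]

theorem DD_xx [Fintype ι] (e : ι → ℂ) (he : ∑ a, e a * conj (e a) = 1) (i j : Fin 3) :
    DD (sl e i) (xx e j) = if i = j then 1 else 0 := by
  have h1 : ∀ k : Fin 3, ∑ a, ee e k a * conj (ee e k a) = 1 := by
    intro k
    by_cases hk : k = 2
    · subst hk
      rw [← he]
      refine Finset.sum_congr rfl fun a _ => ?_
      simp [ee]
      ring
    · rw [← he]
      refine Finset.sum_congr rfl fun a _ => ?_
      simp [ee, hk]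
  have h2 : ∀ a, DD (sl e i) (C (ee e j a) * X (j, a)) = C (ee e j a * sl e i (j, a)) := by
    intro a
    rw [DD_mul, DD_C, DD_X, map_mul]
    ring
  rw [xx, map_sum]
  simp only [h2]
  rw [← map_sum]
  by_cases h : i = j
  · subst h
    rw [if_pos rfl]
    have h3 : ∀ a, ee e i a * sl e i (i, a) = ee e i a * conj (ee e i a) := by
      intro a
      simp [sl]
    simp only [h3, h1, map_one]
  · rw [if_neg h]
    have h3 : ∀ a, ee e j a * sl e i (j, a) = 0 := by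
      intro a
      have h4 : sl e i (j, a) = 0 := if_neg (fun h' : j = i => h h'.symm)
      rw [h4, mul_zero]
    simp only [h3, Finset.sum_const_zero, map_zero]

theorem lX [Fintype ι] (c : Fin 3 → ℝ) (e : ι → ℂ) (he : ∑ a, e a * conj (e a) = 1)
    (i j : Fin 3) (u : MvPolynomial (Fin 3 × ι) ℂ) :
    lR e i (Xo c e j u) = Xo c e j (lR e i u) + if i = j then u else 0 := by
  have h : ∀ k, DD (sl e i) (C (Wm c j k : ℂ) * DD (sl e k) u) =
      C (Wm c j k : ℂ) * DD (sl e k) (DD (sl e i) u) := by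
    intro k
    rw [DD_Cm, DD_comm]
  rw [Xo_apply, Xo_apply, lR_apply, lR_apply, map_sub, map_sum, DD_mul, DD_xx e he]
  simp only [h]
  split_ifs <;> ring

/-! ### The product states -/

theorem dE_eq [Fintype ι] [DecidableEq ι] (e : ι → ℂ) (G : MvPolynomial ι ℂ) :
    dE e G = DD (fun a => conj (e a)) G := (DD_eq_sum _ _).symm

theorem DDsl_ne (e : ι → ℂ) {i k : Fin 3} (h : k ≠ i) (G : MvPolynomial ι ℂ) :
    DD (sl e i) (rename (Prod.mk k) G) = 0 := by
  rw [DD_rename]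
  have : (sl e i ∘ Prod.mk k) = fun _ : ι => (0 : ℂ) := by
    funext a
    exact if_neg h
  rw [this, DD_zero, map_zero]

theorem DDsl_eq (e : ι → ℂ) (i : Fin 3) (G : MvPolynomial ι ℂ) :
    DD (sl e i) (rename (Prod.mk i) G) = rename (Prod.mk i) (DD (fun a => conj (ee e i a)) G) := by
  rw [DD_rename]
  have : (sl e i ∘ Prod.mk i) = fun a : ι => conj (ee e i a) := by
    funext a
    exact if_pos rfl
  rw [this]

theorem DDsl0 [Fintype ι] [DecidableEq ι] (e : ι → ℂ) (G : MvPolynomial ι ℂ) :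
    DD (sl e 0) (rename (Prod.mk 0) G) = rename (Prod.mk 0) (dE e G) := by
  rw [DDsl_eq, dE_eq]
  rfl

theorem DDsl1 [Fintype ι] [DecidableEq ι] (e : ι → ℂ) (G : MvPolynomial ι ℂ) :
    DD (sl e 1) (rename (Prod.mk 1) G) = rename (Prod.mk 1) (dE e G) := by
  rw [DDsl_eq, dE_eq]
  rfl

theorem DDsl2 [Fintype ι] [DecidableEq ι] (e : ι → ℂ) (G : MvPolynomial ι ℂ) :
    DD (sl e 2) (rename (Prod.mk 2) (cj G)) = rename (Prod.mk 2) (cj (dE e G)) := by
  rw [DDsl_eq, dE_eq, DD_cj]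
  have : (fun a => conj (conj (ee e 2 a))) = fun a : ι => conj (e a) := by
    funext a
    simp [ee]
  rw [this]

/-- the product states of the half ring -/
noncomputable def Phi [Fintype ι] (e : ι → ℂ) (F : MvPolynomial ι ℂ) (n : Fin 3 →₀ ℕ) :
    MvPolynomial (Fin 3 × ι) ℂ :=
  rename (Prod.mk 0) ((dE e)^[n 0] F) * rename (Prod.mk 1) ((dE e)^[n 1] F) *
    rename (Prod.mk 2) (cj ((dE e)^[n 2] F))

theorem Phi_D [Fintype ι] [DecidableEq ι] (e : ι → ℂ) (F : MvPolynomial ι ℂ) (i : Fin 3)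
    (n : Fin 3 →₀ ℕ) : DD (sl e i) (Phi e F n) = Phi e F (n + Finsupp.single i 1) := by
  have hs : ∀ k : Fin 3, k ≠ i → (n + Finsupp.single i 1 : Fin 3 →₀ ℕ) k = n k := by
    intro k hk
    rw [Finsupp.add_apply, Finsupp.single_eq_of_ne hk, add_zero]
  have hi : (n + Finsupp.single i 1 : Fin 3 →₀ ℕ) i = n i + 1 := by
    rw [Finsupp.add_apply, Finsupp.single_eq_same]
  unfold Phi
  rw [DD_mul, DD_mul]
  fin_cases i
  · have a1 : (n + Finsupp.single 0 1 : Fin 3 →₀ ℕ) 1 = n 1 := hs 1 (by decide)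
    have a2 : (n + Finsupp.single 0 1 : Fin 3 →₀ ℕ) 2 = n 2 := hs 2 (by decide)
    have a0 : (n + Finsupp.single 0 1 : Fin 3 →₀ ℕ) 0 = n 0 + 1 := hi
    show (DD (sl e 0) _ * _ + _ * DD (sl e 0) _) * _ + _ * DD (sl e 0) _ =
      rename (Prod.mk 0) ((dE e)^[(n + Finsupp.single 0 1 : Fin 3 →₀ ℕ) 0] F) *
      rename (Prod.mk 1) ((dE e)^[(n + Finsupp.single 0 1 : Fin 3 →₀ ℕ) 1] F) *
      rename (Prod.mk 2) (cj ((dE e)^[(n + Finsupp.single 0 1 : Fin 3 →₀ ℕ) 2] F))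
    rw [a0, a1, a2, DDsl0, DDsl_ne e (show (1 : Fin 3) ≠ 0 by decide),
      DDsl_ne e (show (2 : Fin 3) ≠ 0 by decide), Function.iterate_succ_apply', mul_zero, mul_zero,
      add_zero, add_zero]
  · have a1 : (n + Finsupp.single 1 1 : Fin 3 →₀ ℕ) 0 = n 0 := hs 0 (by decide)
    have a2 : (n + Finsupp.single 1 1 : Fin 3 →₀ ℕ) 2 = n 2 := hs 2 (by decide)
    have a0 : (n + Finsupp.single 1 1 : Fin 3 →₀ ℕ) 1 = n 1 + 1 := hi
    show (DD (sl e 1) _ * _ + _ * DD (sl e 1) _) * _ + _ * DD (sl e 1) _ =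
      rename (Prod.mk 0) ((dE e)^[(n + Finsupp.single 1 1 : Fin 3 →₀ ℕ) 0] F) *
      rename (Prod.mk 1) ((dE e)^[(n + Finsupp.single 1 1 : Fin 3 →₀ ℕ) 1] F) *
      rename (Prod.mk 2) (cj ((dE e)^[(n + Finsupp.single 1 1 : Fin 3 →₀ ℕ) 2] F))
    rw [a0, a1, a2, DDsl1, DDsl_ne e (show (0 : Fin 3) ≠ 1 by decide),
      DDsl_ne e (show (2 : Fin 3) ≠ 1 by decide), Function.iterate_succ_apply', zero_mul, mul_zero,
      zero_add, add_zero]
  · have a1 : (n + Finsupp.single 2 1 : Fin 3 →₀ ℕ) 0 = n 0 := hs 0 (by decide)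
    have a2 : (n + Finsupp.single 2 1 : Fin 3 →₀ ℕ) 1 = n 1 := hs 1 (by decide)
    have a0 : (n + Finsupp.single 2 1 : Fin 3 →₀ ℕ) 2 = n 2 + 1 := hi
    show (DD (sl e 2) _ * _ + _ * DD (sl e 2) _) * _ + _ * DD (sl e 2) _ =
      rename (Prod.mk 0) ((dE e)^[(n + Finsupp.single 2 1 : Fin 3 →₀ ℕ) 0] F) *
      rename (Prod.mk 1) ((dE e)^[(n + Finsupp.single 2 1 : Fin 3 →₀ ℕ) 1] F) *
      rename (Prod.mk 2) (cj ((dE e)^[(n + Finsupp.single 2 1 : Fin 3 →₀ ℕ) 2] F))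
    rw [a0, a1, a2, DDsl2, DDsl_ne e (show (0 : Fin 3) ≠ 2 by decide),
      DDsl_ne e (show (1 : Fin 3) ≠ 2 by decide), Function.iterate_succ_apply', zero_mul, mul_zero,
      add_zero, zero_mul, zero_add]

/-- the states -/
noncomputable def Ps [Fintype ι] (e : ι → ℂ) (F : MvPolynomial ι ℂ) :
    MvPolynomial (Fin 3) ℝ →ₗ[ℝ] MvPolynomial (Fin 3 × ι) ℂ :=
  (basisMonomials (Fin 3) ℝ).constr ℝ (Phi e F)

theorem Ps_mono [Fintype ι] (e : ι → ℂ) (F : MvPolynomial ι ℂ) (n : Fin 3 →₀ ℕ) :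
    Ps e F (monomial n 1) = Phi e F n := by
  have h := (basisMonomials (Fin 3) ℝ).constr_basis ℝ (Phi e F) n
  rw [coe_basisMonomials] at h
  exact h

theorem Ps_X [Fintype ι] [DecidableEq ι] (e : ι → ℂ) (F : MvPolynomial ι ℂ) (i : Fin 3)
    (A : MvPolynomial (Fin 3) ℝ) : lR e i (Ps e F A) = Ps e F (X i * A) := by
  have h : (lR e i).comp (Ps e F) = (Ps e F).comp (LinearMap.mulLeft ℝ (X i)) := by
    refine (basisMonomials (Fin 3) ℝ).ext fun n => ?_
    have hb : basisMonomials (Fin 3) ℝ n = monomial n 1 := by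
      rw [coe_basisMonomials]
    rw [hb, LinearMap.comp_apply, LinearMap.comp_apply, LinearMap.mulLeft_apply]
    have h2 : (X i * monomial n 1 : MvPolynomial (Fin 3) ℝ) =
        monomial (n + Finsupp.single i 1 : Fin 3 →₀ ℕ) 1 := by
      rw [X, monomial_mul, one_mul, add_comm]
    rw [h2, Ps_mono, Ps_mono, lR_apply, Phi_D]
  exact LinearMap.congr_fun h A

/-- the complex symbol functional -/
noncomputable def LamC [Fintype ι] (L : MvPolynomial (Sl × ι) ℂ →ₗ[ℂ] ℂ) (e : ι → ℂ)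
    (F : MvPolynomial ι ℂ) : Sy →ₗ[ℝ] ℂ :=
  (basisMonomials Sl ℝ).constr ℝ fun n =>
    L (GM e F (fun p => n (Sum.inl p)) (fun q => n (Sum.inr q)))

theorem LamC_mono [Fintype ι] (L : MvPolynomial (Sl × ι) ℂ →ₗ[ℂ] ℂ) (e : ι → ℂ)
    (F : MvPolynomial ι ℂ) (n : Sl →₀ ℕ) : LamC L e F (monomial n 1) =
    L (GM e F (fun p => n (Sum.inl p)) (fun q => n (Sum.inr q))) := by
  have h := (basisMonomials Sl ℝ).constr_basis ℝ (fun n : Sl →₀ ℕ =>
    L (GM e F (fun p => n (Sum.inl p)) (fun q => n (Sum.inr q)))) n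
  rw [coe_basisMonomials] at h
  exact h

theorem Lam_re [Fintype ι] (L : MvPolynomial (Sl × ι) ℂ →ₗ[ℂ] ℂ) (e : ι → ℂ)
    (F : MvPolynomial ι ℂ) (P : Sy) : Lam L e F P = (LamC L e F P).re := by
  have h : Lam L e F = Complex.reLm.comp (LamC L e F) := by
    refine (basisMonomials Sl ℝ).ext fun n => ?_
    have h1 := (basisMonomials Sl ℝ).constr_basis ℝ (fun n : Sl →₀ ℕ =>
      (L (GM e F (fun p => n (Sum.inl p)) (fun q => n (Sum.inr q)))).re) n
    have h2 := (basisMonomials Sl ℝ).constr_basis ℝ (fun n : Sl →₀ ℕ =>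
      L (GM e F (fun p => n (Sum.inl p)) (fun q => n (Sum.inr q)))) n
    unfold Lam LamC
    rw [LinearMap.comp_apply, h1, h2]
    rfl
  rw [h]
  rfl

/-! ### Exponents -/

theorem ltS_inj : Function.Injective ltS := by decide

theorem thS_thS : ∀ σ : Sl, thS (thS σ) = σ := by decide

theorem thS_inj : Function.Injective thS := by decide

theorem md_in (m : Fin 3 →₀ ℕ) (k : Fin 3) : Finsupp.mapDomain ltS m (ltS k) = m k :=
  Finsupp.mapDomain_apply ltS_inj m k

theorem md_out (m : Fin 3 →₀ ℕ) (σ : Sl) (h : ∀ k, ltS k ≠ σ) :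
    Finsupp.mapDomain ltS m σ = 0 :=
  Finsupp.mapDomain_notin_range _ _ (by rintro ⟨k, hk⟩; exact h k hk)

theorem md_th (m : Sl →₀ ℕ) (σ : Sl) : Finsupp.mapDomain thS m σ = m (thS σ) := by
  conv_lhs => rw [← thS_thS σ]
  exact Finsupp.mapDomain_apply thS_inj m (thS σ)

/-- the exponents of a product of symbols -/
noncomputable def NN (n m : Fin 3 →₀ ℕ) : Sl →₀ ℕ :=
  Finsupp.mapDomain thS (Finsupp.mapDomain ltS n) + Finsupp.mapDomain ltS m

theorem NN_i0 (n m : Fin 3 →₀ ℕ) : NN n m (Sum.inl 0) = n 2 := by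
  rw [NN, Finsupp.add_apply, md_th, md_out m (Sum.inl 0) (by decide), add_zero,
    show thS (Sum.inl 0) = ltS 2 by decide, md_in]

theorem NN_i1 (n m : Fin 3 →₀ ℕ) : NN n m (Sum.inl 1) = m 0 := by
  rw [NN, Finsupp.add_apply, md_th, md_out n (thS (Sum.inl 1)) (by decide), zero_add,
    show (Sum.inl 1 : Sl) = ltS 0 by decide, md_in]

theorem NN_i2 (n m : Fin 3 →₀ ℕ) : NN n m (Sum.inl 2) = m 1 := by
  rw [NN, Finsupp.add_apply, md_th, md_out n (thS (Sum.inl 2)) (by decide), zero_add,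
    show (Sum.inl 2 : Sl) = ltS 1 by decide, md_in]

theorem NN_r0 (n m : Fin 3 →₀ ℕ) : NN n m (Sum.inr 0) = n 1 := by
  rw [NN, Finsupp.add_apply, md_th, md_out m (Sum.inr 0) (by decide), add_zero,
    show thS (Sum.inr 0) = ltS 1 by decide, md_in]

theorem NN_r1 (n m : Fin 3 →₀ ℕ) : NN n m (Sum.inr 1) = n 0 := by
  rw [NN, Finsupp.add_apply, md_th, md_out m (Sum.inr 1) (by decide), add_zero,
    show thS (Sum.inr 1) = ltS 0 by decide, md_in]

theorem NN_r2 (n m : Fin 3 →₀ ℕ) : NN n m (Sum.inr 2) = m 2 := by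
  rw [NN, Finsupp.add_apply, md_th, md_out n (thS (Sum.inr 2)) (by decide), zero_add,
    show (Sum.inr 2 : Sl) = ltS 2 by decide, md_in]

theorem sym_mono (n m : Fin 3 →₀ ℕ) :
    (rename thS (rename ltS (monomial n 1)) * rename ltS (monomial m 1) : Sy) =
      monomial (NN n m) 1 := by
  rw [rename_monomial, rename_monomial, rename_monomial, monomial_mul, one_mul]
  rfl

theorem ph1_k (k : Fin 3) : (ph1 ∘ Prod.mk k : ι → Sl × ι) = Prod.mk (ltS k) := rfl

theorem ph2_k (k : Fin 3) : (ph2 ∘ Prod.mk k : ι → Sl × ι) = Prod.mk (thS (ltS k)) := rfl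

theorem BB_Phi [Fintype ι] (L : MvPolynomial (Sl × ι) ℂ →ₗ[ℂ] ℂ) (e : ι → ℂ)
    (F : MvPolynomial ι ℂ) (n m : Fin 3 →₀ ℕ) :
    BB L (Phi e F n) (Phi e F m) = LamC L e F (monomial (NN n m) 1) := by
  rw [LamC_mono, BB_apply]
  have e1 : rename ph2 (cj (Phi e F n)) = pl (Sum.inr 1) (cj ((dE e)^[n 0] F)) *
      pl (Sum.inr 0) (cj ((dE e)^[n 1] F)) * pl (Sum.inl 0) ((dE e)^[n 2] F) := by
    rw [Phi, cj_mul, cj_mul, cj_rename, cj_rename, cj_rename, cj_cj, map_mul, map_mul,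
      rename_rename, rename_rename, rename_rename, ph2_k, ph2_k, ph2_k]
    rfl
  have e2 : rename ph1 (Phi e F m) = pl (Sum.inl 1) ((dE e)^[m 0] F) *
      pl (Sum.inl 2) ((dE e)^[m 1] F) * pl (Sum.inr 2) (cj ((dE e)^[m 2] F)) := by
    rw [Phi, map_mul, map_mul,
      rename_rename, rename_rename, rename_rename, ph1_k, ph1_k, ph1_k]
    rfl
  have e3 : GM e F (fun p => NN n m (Sum.inl p)) (fun q => NN n m (Sum.inr q)) =
      rename ph2 (cj (Phi e F n)) * rename ph1 (Phi e F m) := by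
    rw [e1, e2, GM, Fin.prod_univ_three, Fin.prod_univ_three, NN_i0, NN_i1, NN_i2, NN_r0, NN_r1,
      NN_r2]
    ring
  rw [e3]

theorem BB_h5 [Fintype ι] (L : MvPolynomial (Sl × ι) ℂ →ₗ[ℂ] ℂ) (e : ι → ℂ)
    (F : MvPolynomial ι ℂ) (A A' : MvPolynomial (Fin 3) ℝ) :
    BB L (Ps e F A) (Ps e F A') =
      LamC L e F (rename thS (rename ltS A) * rename ltS A') := by
  have hb : ∀ n, basisMonomials (Fin 3) ℝ n = monomial n 1 := by
    intro n
    rw [coe_basisMonomials]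
  have hm : ∀ n, BB L (Ps e F (monomial n 1)) (Ps e F A') =
      LamC L e F (rename thS (rename ltS (monomial n 1)) * rename ltS A') := by
    intro n
    have h : (BB L (Ps e F (monomial n 1))).comp (Ps e F) =
        (LamC L e F).comp ((LinearMap.mulLeft ℝ
          (rename thS (rename ltS (monomial n 1)) : Sy)).comp
          (rename ltS : MvPolynomial (Fin 3) ℝ →ₐ[ℝ] Sy).toLinearMap) := by
      refine (basisMonomials (Fin 3) ℝ).ext fun m => ?_
      rw [hb, LinearMap.comp_apply, LinearMap.comp_apply, LinearMap.comp_apply,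
        LinearMap.mulLeft_apply, AlgHom.toLinearMap_apply, sym_mono, Ps_mono, Ps_mono, BB_Phi]
    exact LinearMap.congr_fun h A'
  have h : ((BB L).flip (Ps e F A')).comp (Ps e F) =
      (LamC L e F).comp ((LinearMap.mulRight ℝ (rename ltS A' : Sy)).comp
        (((rename thS : Sy →ₐ[ℝ] Sy).comp
          (rename ltS : MvPolynomial (Fin 3) ℝ →ₐ[ℝ] Sy)).toLinearMap)) := by
    refine (basisMonomials (Fin 3) ℝ).ext fun n => ?_
    rw [hb, LinearMap.comp_apply, LinearMap.comp_apply, LinearMap.comp_apply,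
      LinearMap.flip_apply, LinearMap.mulRight_apply, AlgHom.toLinearMap_apply,
      AlgHom.comp_apply, hm]
  exact LinearMap.congr_fun h A

end half

/-- **pt:TW** -/
theorem rowTW : Pool.Agent.helper59.PT.RowRP → Pool.Agent.helper59.PT.RowTW := by
  intro hRP ι _ _ c hc L hL e F he n w A
  have h0 := hRP ι c hc L hL (∑ i, XW (Xo c e) (w i) (Ps e F (A i)))
  have h1 : L (rename (fun v : Fin 3 × ι => (ltS v.1, v.2))
        (∑ i, XW (Xo c e) (w i) (Ps e F (A i))) *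
      rename (fun v : Fin 3 × ι => (thS (ltS v.1), v.2))
        (cj (∑ i, XW (Xo c e) (w i) (Ps e F (A i))))) =
      BB L (∑ i, XW (Xo c e) (w i) (Ps e F (A i))) (∑ i, XW (Xo c e) (w i) (Ps e F (A i))) := by
    rw [BB_apply, mul_comm]
    rfl
  rw [h1, map_sum (BB L), LinearMap.sum_apply] at h0
  have h2 : ∀ i, BB L (XW (Xo c e) (w i) (Ps e F (A i)))
      (∑ j, XW (Xo c e) (w j) (Ps e F (A j))) = ∑ j, LamC L e F
        (rename thS (rename ltS (A i)) * rename ltS (A j) * WT c (w i) (w j)) := by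
    intro i
    rw [map_sum]
    refine Finset.sum_congr rfl fun j _ => ?_
    exact words (Mc c) (BB L) (lR e) (Xo c e) (Ps e F) (LamC L e F) (fun i v u => BB_h1 hL e i v u)
      (fun j v u => BB_h2 hL e j v u) (fun i j u => lX c e he i j u)
      (fun i A => Ps_X e F i A) (fun A A' => BB_h5 L e F A A') (w i) (w j) (A i) (A j)
  simp only [h2] at h0
  rw [Lam_re, map_sum]
  simp only [map_sum]
  exact h0

end Pool.Agent.helper83.PTW
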