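import Pool.Agent.helper59.PT.Spec

set_option linter.all false
set_option autoImplicit false

/-!
# pt:TW, positivity of the symbol functional (MP_2dd521_co)
-/

namespace Pool.Agent.helper83.PTW

open MvPolynomial Pool.Agent.helper59.PT
open scoped ComplexConjugate

/-! ### The abstract calculus of words -/

section abs

variable {H : Type} [AddCommGroup H] [Module ℝ H]

/-- words in the creation operators -/
def XW (Xo : Fin 3 → H →ₗ[ℝ] H) : List (Fin 3) → H →ₗ[ℝ] H
  | [] => LinearMap.id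
  | i :: w => (Xo i).comp (XW Xo w)

theorem XW_nil (Xo : Fin 3 → H →ₗ[ℝ] H) (y : H) : XW Xo [] y = y := rfl

theorem XW_cons (Xo : Fin 3 → H →ₗ[ℝ] H) (i : Fin 3) (w : List (Fin 3)) (y : H) :
    XW Xo (i :: w) y = Xo i (XW Xo w y) := rfl

theorem l_XW (l Xo : Fin 3 → H →ₗ[ℝ] H)
    (h3 : ∀ i j u, l i (Xo j u) = Xo j (l i u) + if i = j then u else 0) (j : Fin 3) :
    ∀ (w : List (Fin 3)) (y : H), l j (XW Xo w y) = XW Xo w (l j y) +
      ∑ k : Fin w.length, if j = w.get k then XW Xo (w.eraseIdx k) y else 0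
  | [], y => by simp [XW_nil]
  | i :: w, y => by
    have ih := l_XW l Xo h3 j w y
    rw [XW_cons, h3, ih, map_add, map_sum, XW_cons]
    have hs : (∑ k : Fin (i :: w).length, if j = (i :: w).get k then
        XW Xo ((i :: w).eraseIdx k) y else 0) = (if j = i then XW Xo w y else 0) +
        ∑ k : Fin w.length, if j = w.get k then Xo i (XW Xo (w.eraseIdx k) y) else 0 := by
      exact Fin.sum_univ_succ (n := w.length) (fun k : Fin (w.length + 1) =>
        if j = (i :: w).get k then XW Xo ((i :: w).eraseIdx k) y else 0)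
    rw [hs]
    have ht : (∑ k : Fin w.length, Xo i (if j = w.get k then XW Xo (w.eraseIdx k) y else 0)) =
        ∑ k : Fin w.length, if j = w.get k then Xo i (XW Xo (w.eraseIdx k) y) else 0 := by
      refine Finset.sum_congr rfl fun k _ => ?_
      split_ifs <;> simp
    rw [ht]
    abel

theorem words (M : Fin 3 → Fin 3 → ℝ) (B : H →ₗ[ℝ] H →ₗ[ℝ] ℂ) (l Xo : Fin 3 → H →ₗ[ℝ] H)
    (Ψ : MvPolynomial (Fin 3) ℝ →ₗ[ℝ] H) (Λ : Sy →ₗ[ℝ] ℂ)
    (h1 : ∀ i v u, B (Xo i v) u = ∑ j, M i j • B v (l j u))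
    (h2 : ∀ j v u, B v (Xo j u) = ∑ i, M i j • B (l i v) u)
    (h3 : ∀ i j u, l i (Xo j u) = Xo j (l i u) + if i = j then u else 0)
    (h4 : ∀ i A, l i (Ψ A) = Ψ (X i * A))
    (h5 : ∀ A A', B (Ψ A) (Ψ A') = Λ (rename thS (rename ltS A) * rename ltS A')) :
    ∀ (w w' : List (Fin 3)) (A A' : MvPolynomial (Fin 3) ℝ),
      B (XW Xo w (Ψ A)) (XW Xo w' (Ψ A')) = Λ (rename thS (rename ltS A) * rename ltS A' *
        Wd (fun i j => C (M i j)) (fun i => ∑ j, C (M i j) * X (ltS j))
          (fun j => ∑ i, C (M i j) * X (thS (ltS i))) w w') := by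
  intro w
  induction w with
  | nil =>
    intro w'
    induction w' with
    | nil =>
      intro A A'
      rw [XW_nil, XW_nil, h5]
      simp [Wd]
    | cons j v ih =>
      intro A A'
      rw [XW_nil, XW_cons, h2]
      have hW : Wd (fun i j => C (M i j)) (fun i => ∑ j, C (M i j) * X (ltS j))
          (fun j => ∑ i, C (M i j) * X (thS (ltS i))) [] (j :: v) =
          (∑ i, C (M i j) * X (thS (ltS i)) : Sy) *
          Wd (fun i j => C (M i j)) (fun i => ∑ j, C (M i j) * X (ltS j))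
          (fun j => ∑ i, C (M i j) * X (thS (ltS i))) [] v := by
        simp [Wd]
      rw [hW, Finset.sum_mul, Finset.mul_sum, map_sum]
      refine Finset.sum_congr rfl fun i _ => ?_
      have e1 := ih (X i * A) A'
      rw [XW_nil] at e1
      rw [h4, e1, ← map_smul]
      congr 1
      rw [smul_eq_C_mul]
      simp only [map_mul, rename_X]
      ring
  | cons i u ih =>
    intro w' A A'
    rw [XW_cons, h1]
    have hW : Wd (fun i j => C (M i j)) (fun i => ∑ j, C (M i j) * X (ltS j))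
        (fun j => ∑ i, C (M i j) * X (thS (ltS i))) (i :: u) w' =
        (∑ j, C (M i j) * X (ltS j) : Sy) *
        Wd (fun i j => C (M i j)) (fun i => ∑ j, C (M i j) * X (ltS j))
          (fun j => ∑ i, C (M i j) * X (thS (ltS i))) u w' +
        ∑ k : Fin w'.length, C (M i (w'.get k)) *
          Wd (fun i j => C (M i j)) (fun i => ∑ j, C (M i j) * X (ltS j))
          (fun j => ∑ i, C (M i j) * X (thS (ltS i))) u (w'.eraseIdx k) := rfl
    rw [hW, mul_add, map_add, Finset.sum_mul, Finset.mul_sum, map_sum, Finset.mul_sum, map_sum]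
    have hstep : ∀ j, B (XW Xo u (Ψ A)) (l j (XW Xo w' (Ψ A'))) =
        Λ (rename thS (rename ltS A) * rename ltS (X j * A') *
          Wd (fun i j => C (M i j)) (fun i => ∑ j, C (M i j) * X (ltS j))
          (fun j => ∑ i, C (M i j) * X (thS (ltS i))) u w') +
        ∑ k : Fin w'.length, if j = w'.get k then
          Λ (rename thS (rename ltS A) * rename ltS A' *
          Wd (fun i j => C (M i j)) (fun i => ∑ j, C (M i j) * X (ltS j))
          (fun j => ∑ i, C (M i j) * X (thS (ltS i))) u (w'.eraseIdx k)) else 0 := by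
      intro j
      rw [l_XW l Xo h3 j w' (Ψ A'), map_add, h4, ih, map_sum]
      congr 1
      refine Finset.sum_congr rfl fun k _ => ?_
      split_ifs
      · rw [ih]
      · simp
    simp only [hstep, smul_add, Finset.smul_sum, Finset.sum_add_distrib]
    congr 1
    · refine Finset.sum_congr rfl fun j _ => ?_
      rw [← map_smul]
      congr 1
      rw [smul_eq_C_mul]
      simp only [map_mul, rename_X]
      ring
    · rw [Finset.sum_comm]
      refine Finset.sum_congr rfl fun k _ => ?_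
      rw [Finset.sum_eq_single (w'.get k)]
      · rw [if_pos rfl, ← map_smul]
        congr 1
        rw [smul_eq_C_mul]
        ring
      · intro b _ hb
        rw [if_neg hb, smul_zero]
      · intro h
        exact absurd (Finset.mem_univ _) h

end abs

/-! ### Derivations with constant coefficients -/

section der

variable {V V' : Type}

/-- the derivation `∑ v, f v ∂_v` -/
noncomputable def DD (f : V → ℂ) : Derivation ℂ (MvPolynomial V ℂ) (MvPolynomial V ℂ) :=
  mkDerivation ℂ (fun v => C (f v))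

theorem DD_X (f : V → ℂ) (v : V) : DD f (X v) = C (f v) := mkDerivation_X _ _ _

theorem DD_C (f : V → ℂ) (a : ℂ) : DD f (C a) = 0 := derivation_C _ _

theorem DD_mul (f : V → ℂ) (p q : MvPolynomial V ℂ) :
    DD f (p * q) = DD f p * q + p * DD f q := by
  rw [Derivation.leibniz]
  simp only [smul_eq_mul]
  ring

theorem DD_zero (p : MvPolynomial V ℂ) : DD (fun _ : V => (0 : ℂ)) p = 0 := by
  induction p using MvPolynomial.induction_on with
  | C a => exact DD_C _ _
  | add p q hp hq => rw [map_add, hp, hq, add_zero]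
  | mul_X p n hp => rw [DD_mul, hp, DD_X, map_zero]; ring

theorem DD_eq_sum [Fintype V] [DecidableEq V] (f : V → ℂ) (p : MvPolynomial V ℂ) :
    DD f p = ∑ v, C (f v) * pderiv v p := by
  induction p using MvPolynomial.induction_on with
  | C a => rw [DD_C]; simp
  | add p q hp hq => rw [map_add, hp, hq, ← Finset.sum_add_distrib]; simp [mul_add]
  | mul_X p n hp =>
    rw [DD_mul, hp, DD_X, Finset.sum_mul]
    have hs : ∀ v, C (f v) * pderiv v (p * X n) = C (f v) * pderiv v p * X n +
        (if v = n then p * C (f v) else 0) := by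
      intro v
      rw [pderiv_mul, pderiv_X]
      by_cases h : v = n
      · subst h
        simp
        ring
      · rw [if_neg h, Pi.single_eq_of_ne (by exact fun h' => h h'.symm)]
        ring
    simp only [hs, Finset.sum_add_distrib, Finset.sum_ite_eq', Finset.mem_univ, if_true]

theorem DD_rename (φ : V → V') (f : V' → ℂ) (p : MvPolynomial V ℂ) :
    DD f (rename φ p) = rename φ (DD (f ∘ φ) p) := by
  induction p using MvPolynomial.induction_on with
  | C a => rw [rename_C, DD_C, DD_C, map_zero]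
  | add p q hp hq => rw [map_add, map_add, hp, hq, map_add, map_add]
  | mul_X p n hp =>
    rw [map_mul, DD_mul, hp, rename_X, DD_X, DD_mul, DD_X, map_add, map_mul, map_mul, rename_X,
      rename_C]
    rfl

theorem cj_C (a : ℂ) : cj (C a : MvPolynomial V ℂ) = C (conj a) := map_C _ _

theorem cj_X (v : V) : cj (X v : MvPolynomial V ℂ) = X v := map_X _ _

theorem cj_add (p q : MvPolynomial V ℂ) : cj (p + q) = cj p + cj q := map_add _ _ _

theorem cj_mul (p q : MvPolynomial V ℂ) : cj (p * q) = cj p * cj q := map_mul _ _ _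

theorem cj_zero : cj (0 : MvPolynomial V ℂ) = 0 := map_zero _

theorem cj_sum {α : Type} (s : Finset α) (g : α → MvPolynomial V ℂ) :
    cj (∑ i ∈ s, g i) = ∑ i ∈ s, cj (g i) := map_sum (MvPolynomial.map (starRingEnd ℂ)) _ _

theorem cj_cj (p : MvPolynomial V ℂ) : cj (cj p) = p := by
  unfold cj
  rw [map_map]
  have : (starRingEnd ℂ).comp (starRingEnd ℂ) = RingHom.id ℂ := by
    ext x
    simp
  rw [this, map_id]

theorem cj_rename (φ : V → V') (p : MvPolynomial V ℂ) :
    cj (rename φ p) = rename φ (cj p) := map_rename _ _ _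

theorem DD_cj (f : V → ℂ) (p : MvPolynomial V ℂ) :
    DD f (cj p) = cj (DD (fun v => conj (f v)) p) := by
  induction p using MvPolynomial.induction_on with
  | C a => rw [cj_C, DD_C, DD_C, cj_zero]
  | add p q hp hq => rw [cj_add, map_add, hp, hq, map_add, cj_add]
  | mul_X p n hp =>
    rw [cj_mul, DD_mul, hp, cj_X, DD_X, DD_mul, DD_X, cj_add, cj_mul, cj_mul, cj_X, cj_C,
      Complex.conj_conj]

theorem DD_comm (f g : V → ℂ) (p : MvPolynomial V ℂ) : DD f (DD g p) = DD g (DD f p) := by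
  induction p using MvPolynomial.induction_on with
  | C a => rw [DD_C, DD_C, map_zero, map_zero]
  | add p q hp hq => rw [map_add, map_add, hp, hq, map_add, map_add]
  | mul_X p n hp =>
    rw [DD_mul, DD_mul, map_add, map_add, DD_mul, DD_mul, DD_mul, DD_mul, hp, DD_X, DD_X, DD_C,
      DD_C]
    ring

theorem DD_lin {α : Type} [Fintype α] (κ : α → ℂ) (g : α → V → ℂ) (p : MvPolynomial V ℂ) :
    DD (fun v => ∑ i, κ i * g i v) p = ∑ i, C (κ i) * DD (g i) p := by
  induction p using MvPolynomial.induction_on with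
  | C a => simp [DD_C]
  | add p q hp hq => rw [map_add, hp, hq, ← Finset.sum_add_distrib]; simp [mul_add]
  | mul_X p n hp =>
    rw [DD_mul, hp, DD_X, Finset.sum_mul, map_sum, Finset.mul_sum, ← Finset.sum_add_distrib]
    refine Finset.sum_congr rfl fun i _ => ?_
    rw [DD_mul, DD_X, map_mul]
    ring

theorem L_C_mul {V : Type} (L : MvPolynomial V ℂ →ₗ[ℂ] ℂ) (a : ℂ) (P : MvPolynomial V ℂ) :
    L (C a * P) = a * L P := by
  rw [← smul_eq_C_mul, map_smul, smul_eq_mul]

theorem step_lin [Fintype V] [DecidableEq V] {K : V → V → ℂ} {L : MvPolynomial V ℂ →ₗ[ℂ] ℂ}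
    (h : IsG K L) (g : V → ℂ) (Q : MvPolynomial V ℂ) :
    L ((∑ v, C (g v) * X v) * Q) = L (DD (fun w => ∑ v, g v * K v w) Q) := by
  rw [DD_eq_sum, map_sum, Finset.sum_mul, map_sum]
  have e1 : ∀ v, L (C (g v) * X v * Q) = ∑ w, g v * (K v w * L (pderiv w Q)) := by
    intro v
    rw [mul_assoc, L_C_mul, h.step, Finset.mul_sum]
  have e2 : ∀ w, L (C (∑ v, g v * K v w) * pderiv w Q) =
      ∑ v, g v * (K v w * L (pderiv w Q)) := by
    intro w
    rw [L_C_mul, Finset.sum_mul]
    refine Finset.sum_congr rfl fun v _ => ?_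
    ring
  simp only [e1, e2]
  exact Finset.sum_comm

end der

/-! ### The half ring -/

section half

variable {ι : Type}

/-- the coefficients of the leg in the slots of the half ring -/
noncomputable def ee (e : ι → ℂ) (i : Fin 3) (a : ι) : ℂ := if i = 2 then conj (e a) else e a

/-- the coefficients of the derivative along the leg -/
noncomputable def sl (e : ι → ℂ) (i : Fin 3) : Fin 3 × ι → ℂ :=
  fun v => if v.1 = i then conj (ee e i v.2) else 0

/-- the leg -/
noncomputable def xx [Fintype ι] (e : ι → ℂ) (i : Fin 3) : MvPolynomial (Fin 3 × ι) ℂ :=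
  ∑ a, C (ee e i a) * X (i, a)

/-- contractions inside the half -/
def Wm (c : Fin 3 → ℝ) : Fin 3 → Fin 3 → ℝ := ![![0, 0, c 1], ![0, 0, c 0], ![c 1, c 0, 0]]

/-- first embedding -/
def ph1 : Fin 3 × ι → Sl × ι := fun v => (ltS v.1, v.2)

/-- second embedding -/
def ph2 : Fin 3 × ι → Sl × ι := fun v => (thS (ltS v.1), v.2)

/-- contractions of slots -/
def kS (c : Fin 3 → ℝ) : Sl → Sl → ℝ
  | Sum.inl p, Sum.inr q => circ c p q
  | Sum.inr q, Sum.inl p => circ c p q
  | Sum.inl _, Sum.inl _ => 0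
  | Sum.inr _, Sum.inr _ => 0

theorem KC_eq [DecidableEq ι] (c : Fin 3 → ℝ) (σ τ : Sl) (a b : ι) :
    KC c (σ, a) (τ, b) = if a = b then (kS c σ τ : ℂ) else 0 := by
  rcases σ with p | p <;> rcases τ with q | q <;> simp [KC, kS]

theorem kS11 (c : Fin 3 → ℝ) (j i : Fin 3) : kS c (ltS j) (ltS i) = Wm c j i := by
  fin_cases j <;> fin_cases i <;> simp [kS, ltS, Wm, circ]

theorem kS12 (c : Fin 3 → ℝ) (j i : Fin 3) : kS c (ltS j) (thS (ltS i)) = Mc c i j := by
  fin_cases j <;> fin_cases i <;> simp [kS, ltS, thS, Mc, circ] <;> rfl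

theorem kS21 (c : Fin 3 → ℝ) (i j : Fin 3) : kS c (thS (ltS i)) (ltS j) = Mc c i j := by
  fin_cases j <;> fin_cases i <;> simp [kS, ltS, thS, Mc, circ] <;> rfl

theorem kS22 (c : Fin 3 → ℝ) (i k : Fin 3) : kS c (thS (ltS i)) (thS (ltS k)) = Wm c i k := by
  fin_cases k <;> fin_cases i <;> simp [kS, ltS, thS, Wm, circ]

theorem Wm_ee (c : Fin 3 → ℝ) (e : ι → ℂ) (j i : Fin 3) (b : ι) :
    (Wm c j i : ℂ) * ee e j b = (Wm c j i : ℂ) * conj (ee e i b) := by
  fin_cases j <;> fin_cases i <;> simp [Wm, ee]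

theorem Mc_ee (c : Fin 3 → ℝ) (e : ι → ℂ) (i j : Fin 3) (b : ι) :
    (Mc c i j : ℂ) * ee e j b = (Mc c i j : ℂ) * ee e i b := by
  fin_cases j <;> fin_cases i <;> simp [Mc, ee]

theorem slot_sum [Fintype ι] (σ : Sl) (h : ι → ℂ) :
    (∑ v : Sl × ι, C (if v.1 = σ then h v.2 else 0) * X v : MvPolynomial (Sl × ι) ℂ) =
      ∑ a, C (h a) * X (σ, a) := by
  rw [Fintype.sum_prod_type, Finset.sum_eq_single σ]
  · refine Finset.sum_congr rfl fun a _ => ?_
    simp
  · intro τ _ hτ
    refine Finset.sum_eq_zero fun a _ => ?_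
    simp [hτ]
  · intro h'
    exact absurd (Finset.mem_univ _) h'

theorem slot_K [Fintype ι] [DecidableEq ι] (c : Fin 3 → ℝ) (σ : Sl) (h : ι → ℂ) :
    (fun w : Sl × ι => ∑ v : Sl × ι, (if v.1 = σ then h v.2 else 0) * KC c v w) =
      fun w => (kS c σ w.1 : ℂ) * h w.2 := by
  funext w
  obtain ⟨τ, b⟩ := w
  rw [Fintype.sum_prod_type, Finset.sum_eq_single σ]
  · rw [Finset.sum_eq_single b]
    · rw [KC_eq]
      simp
      ring
    · intro a _ ha
      rw [KC_eq, if_neg ha, mul_zero]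
    · intro h'
      exact absurd (Finset.mem_univ _) h'
  · intro τ' _ hτ
    refine Finset.sum_eq_zero fun a _ => ?_
    simp [hτ]
  · intro h'
    exact absurd (Finset.mem_univ _) h'

theorem contr [Fintype ι] [DecidableEq ι] {c : Fin 3 → ℝ}
    {L : MvPolynomial (Sl × ι) ℂ →ₗ[ℂ] ℂ} (hL : IsG (KC c) L) (σ : Sl) (h : ι → ℂ)
    (v u : MvPolynomial (Fin 3 × ι) ℂ) :
    L ((∑ a, C (h a) * X (σ, a)) * (rename ph2 (cj v) * rename ph1 u)) =
      L (rename ph2 (cj v) * rename ph1 (DD (fun w => (kS c σ (ltS w.1) : ℂ) * h w.2) u)) +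
      L (rename ph2 (cj (DD (fun w => (kS c σ (thS (ltS w.1)) : ℂ) * conj (h w.2)) v)) *
        rename ph1 u) := by
  have g1 : ((fun w : Sl × ι => (kS c σ w.1 : ℂ) * h w.2) ∘ ph1) =
      fun w : Fin 3 × ι => (kS c σ (ltS w.1) : ℂ) * h w.2 := rfl
  have g2 : (fun v : Fin 3 × ι => conj (((fun w : Sl × ι => (kS c σ w.1 : ℂ) * h w.2) ∘ ph2) v)) =
      fun w : Fin 3 × ι => (kS c σ (thS (ltS w.1)) : ℂ) * conj (h w.2) := by
    funext w
    simp [ph2]
  rw [← slot_sum, step_lin hL, slot_K, DD_mul, DD_rename, DD_rename, DD_cj, g1, g2, map_add,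
    add_comm]

/-- the inner product of the half ring -/
theorem creR [Fintype ι] [DecidableEq ι] {c : Fin 3 → ℝ}
    {L : MvPolynomial (Sl × ι) ℂ →ₗ[ℂ] ℂ} (hL : IsG (KC c) L) (e : ι → ℂ) (j : Fin 3)
    (v u : MvPolynomial (Fin 3 × ι) ℂ) :
    L (rename ph2 (cj v) * rename ph1 (xx e j * u)) =
      ∑ i, (Wm c j i : ℂ) * L (rename ph2 (cj v) * rename ph1 (DD (sl e i) u)) +
      ∑ i, (Mc c i j : ℂ) * L (rename ph2 (cj (DD (sl e i) v)) * rename ph1 u) := by
  have hx : rename ph1 (xx e j) = (∑ a, C (ee e j a) * X (ltS j, a) :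
      MvPolynomial (Sl × ι) ℂ) := by
    rw [xx, map_sum]
    refine Finset.sum_congr rfl fun a _ => ?_
    rw [map_mul, rename_C, rename_X]
    rfl
  rw [map_mul (rename ph1), hx, mul_left_comm, contr hL]
  have f1 : (fun w : Fin 3 × ι => (kS c (ltS j) (ltS w.1) : ℂ) * ee e j w.2) =
      fun w => ∑ i, (Wm c j i : ℂ) * sl e i w := by
    funext w
    rw [kS11, Wm_ee]
    simp [sl]
  have f2 : (fun w : Fin 3 × ι => (kS c (ltS j) (thS (ltS w.1)) : ℂ) * conj (ee e j w.2)) =
      fun w => ∑ i, (Mc c i j : ℂ) * sl e i w := by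
    funext w
    have h := congrArg conj (Mc_ee c e w.1 j w.2)
    rw [map_mul, map_mul, Complex.conj_ofReal] at h
    rw [kS12, h]
    simp [sl]
  rw [f1, f2, DD_lin, DD_lin, map_sum (rename ph1), Finset.mul_sum, map_sum L, cj_sum,
    map_sum (rename ph2), Finset.sum_mul, map_sum L]
  congr 1
  · refine Finset.sum_congr rfl fun i _ => ?_
    rw [map_mul (rename ph1), rename_C, mul_left_comm, L_C_mul]
  · refine Finset.sum_congr rfl fun i _ => ?_
    rw [cj_mul, cj_C, Complex.conj_ofReal, map_mul (rename ph2), rename_C, mul_assoc, L_C_mul]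

theorem creL [Fintype ι] [DecidableEq ι] {c : Fin 3 → ℝ}
    {L : MvPolynomial (Sl × ι) ℂ →ₗ[ℂ] ℂ} (hL : IsG (KC c) L) (e : ι → ℂ) (i : Fin 3)
    (v u : MvPolynomial (Fin 3 × ι) ℂ) :
    L (rename ph2 (cj (xx e i * v)) * rename ph1 u) =
      ∑ j, (Mc c i j : ℂ) * L (rename ph2 (cj v) * rename ph1 (DD (sl e j) u)) +
      ∑ k, (Wm c i k : ℂ) * L (rename ph2 (cj (DD (sl e k) v)) * rename ph1 u) := by
  have hx : rename ph2 (cj (xx e i)) = (∑ a, C (conj (ee e i a)) * X (thS (ltS i), a) :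
      MvPolynomial (Sl × ι) ℂ) := by
    rw [xx, cj_sum, map_sum]
    refine Finset.sum_congr rfl fun a _ => ?_
    rw [cj_mul, cj_C, cj_X, map_mul, rename_C, rename_X]
    rfl
  rw [cj_mul, map_mul (rename ph2), hx, mul_assoc, contr hL]
  have f1 : (fun w : Fin 3 × ι => (kS c (thS (ltS i)) (ltS w.1) : ℂ) * conj (ee e i w.2)) =
      fun w => ∑ j, (Mc c i j : ℂ) * sl e j w := by
    funext w
    have h := congrArg conj (Mc_ee c e i w.1 w.2)
    rw [map_mul, map_mul, Complex.conj_ofReal] at h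
    rw [kS21, ← h]
    simp [sl]
  have f2 : (fun w : Fin 3 × ι => (kS c (thS (ltS i)) (thS (ltS w.1)) : ℂ) *
      conj (conj (ee e i w.2))) = fun w => ∑ k, (Wm c i k : ℂ) * sl e k w := by
    funext w
    rw [kS22, Complex.conj_conj, Wm_ee]
    simp [sl]
  rw [f1, f2, DD_lin, DD_lin, map_sum (rename ph1), Finset.mul_sum, map_sum L, cj_sum,
    map_sum (rename ph2), Finset.sum_mul, map_sum L]
  congr 1
  · refine Finset.sum_congr rfl fun i _ => ?_
    rw [map_mul (rename ph1), rename_C, mul_left_comm, L_C_mul]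
  · refine Finset.sum_congr rfl fun i _ => ?_
    rw [cj_mul, cj_C, Complex.conj_ofReal, map_mul (rename ph2), rename_C, mul_assoc, L_C_mul]

end half

end Pool.Agent.helper83.PTW
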